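import Pool.Agent.H49.KU.All

/-!
The set of Kt-random strings is not in P for a suitable universal machine.
-/

namespace Pool.Agent.Results.MP_5e53ef_lc.ModifiedUniversalMachine

open Filter Pool.Agent.H49.KT

/-- There is an efficient universal machine, and for every efficient universal machine `U₀` there is
an efficient universal machine `U`, which simulates `U₀` with one more bit of input and with time
multiplied by a polynomial in the length of the output only, such that every machine deciding the
set of Kt-random strings of `U` takes time `2 ^ (n / (e + 1))` for all large lengths `n`, and such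
that this set is not in P. -/
theorem result :
    (∃ U₀ : BM, Universal 2 U₀) ∧
    ∀ (e : ℕ) (U₀ : BM), Universal e U₀ →
      ∃ (U : BM) (e' C : ℕ), Universal e' U ∧
        (∀ d x t, U₀.Outputs d x t →
          U.Outputs (false :: d) x (C * (x.length + 1) ^ 5 * t)) ∧
        (∀ (V : BM) (τ : ℕ → ℕ), Decides V (RKt U) τ →
          ∀ᶠ n in atTop, 2 ^ (n / (e + 1)) ≤ τ n) ∧
        ¬ InP (RKt U) :=
  Pool.Agent.H49.KU.all_main2

end Pool.Agent.Results.MP_5e53ef_lc.ModifiedUniversalMachine
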