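import Pool.Agent.H62.KO.Approx

/-!
# Relative to an oracle, Levin's complexity `Kt` is computed exactly by one query per threshold

For every oracle machine `M` there is an oracle `A` such that for the machine `slow M`, whose
complexity is within `2 log₂ (|x| + 2) + 8` of that of `M` for every oracle, the set of all `(x, th)`
with `Kt x < th`, and so also `R_Kt`, is reducible to `A` by the linear time map
`(x, th) ↦ 0 1 ^ th 0 x`. If `M` is efficiently universal then its own complexity with the oracle `A` is
known from `A` up to an additive error `O (log |x|)`.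
-/

set_option autoImplicit false

namespace Pool.Agent.Results.MP_5e53ef_lc.OracleExactKt

open Pool.Agent.H62.KO

theorem result (M : OM) :
    (∀ (B : List Bool → Bool) (x : List Bool) (r : ℝ), KtLt M B x r →
      KtLt (slow M) B x (r + 2 * Real.logb 2 (x.length + 2) + 8)) ∧
    (∀ (B : List Bool → Bool) (x : List Bool),
      KtLt (slow M) B x ((x.length + 3 + kap x.length : ℕ) : ℝ)) ∧
    ∃ A : List Bool → Bool,
      (∀ (x : List Bool) (th : ℕ), KtLt (slow M) A x th ↔ A (inf th x) = true) ∧
      (∀ x : List Bool, x ∈ RKt (slow M) A ↔ A (inf x.length x) = false) ∧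
      ∀ (c : List Bool) (k r : ℕ), Simulates M c k r → ∃ C : ℝ, ∀ (x : List Bool) (th : ℕ),
        (A (inf th x) = true → KtLt M A x (th + C * Real.logb 2 (x.length + 2))) ∧
        (A (inf th x) = false → ¬ KtLt M A x (th - C * Real.logb 2 (x.length + 2))) := by
  refine ⟨close M, fun B x => ktLt_iff.2 (literal M B x), orc (fin M), fun x th => ?_, fun x => ?_,
    fun c k r h => approx M h⟩
  · rw [ktLt_iff, main]
  · change ¬ KtLt (slow M) (orc (fin M)) x x.length ↔ _
    rw [ktLt_iff, main, Bool.not_eq_true]

end Pool.Agent.Results.MP_5e53ef_lc.OracleExactKt
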